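import Pool.Agent.Lib.MP_dff026_lc.Main

open MeasureTheory
open Pool.Agent.Lib.MP_dff026_lc

theorem Pool.Agent.Results.MP_dff026_lc.Reduction.result (n : ℕ) (hn : 2 ≤ n) (w : ℝ)
    (hw : 1 ≤ w) :
    upperValue n w = ⨆ L : ℕ, ENNReal.ofReal (matVal n L) ∧
    lowerValue n w = ⨆ L : ℕ, ENNReal.ofReal (matVal n L) ∧
    ∀ L : ℕ, 1 ≤ L →
      matVal n L ≤ 2 * n ∧
      (∃ x ∈ stdSimplex ℝ (Fin L → Option (Fin n)),
        ∀ h : Fin (L + 1) → Fin n, ∑ A, x A * (pay L A h : ℝ) ≤ matVal n L) ∧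
      ∀ x ∈ stdSimplex ℝ (Fin L → Option (Fin n)),
        (∀ h : Fin (L + 1) → Fin n, ∑ A, x A * (pay L A h : ℝ) ≤ matVal n L) →
        ∃ μ : Measure (SPath n), IsProbabilityMeasure μ ∧
          μ.map Subtype.val = stratLaw n L x ∧
          ∀ ν : Measure (HPath n w), IsProbabilityMeasure ν →
            payoff μ ν ≤ ENNReal.ofReal ((1 + n / L) * matVal n L) := by
  have hn0 : 0 < n := by omega
  refine ⟨(values_eq hn0 hw).1, (values_eq hn0 hw).2, fun L hL =>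
    ⟨matVal_le hn0 L, exists_opt hn0 L, fun x hx hv =>
      ⟨stratS hn0 L x, stratS_prob hn0 L hx, stratS_map hn0 L x, fun ν hν =>
        payoff_stratS_le hn0 L hL hx hv ν⟩⟩⟩
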